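import Mathlib
import Pool.Agent.Helper73_EG.Final

/-! A colouring with fewer than `log k` vertices per `log` whose classes are disjoint unions of
complete bipartite graphs. -/

set_option autoImplicit false

namespace Pool.Agent.Helper10_VCL

open Finset Pool.Agent.Helper73_EG

/-- the relation recorded at a later block: equal, or the first differing bit and its value in the
first string -/
def PR {b : ℕ} (o : Option (Fin b × Bool)) (a c : Fin (2 ^ b)) : Prop :=
  (o = none ∧ a = c) ∨ ∃ s e, o = some (s, e) ∧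
    (∀ u < (s : ℕ), (a : ℕ).testBit u = (c : ℕ).testBit u) ∧
      (a : ℕ).testBit s = e ∧ (c : ℕ).testBit s = !e

theorem PR_exists {b : ℕ} (a c : Fin (2 ^ b)) : ∃ o, PR o a c := by
  by_cases h : a = c
  · exact ⟨none, Or.inl ⟨rfl, h⟩⟩
  · have h1 : ∃ s, (a : ℕ).testBit s ≠ (c : ℕ).testBit s := by
      by_contra hcon
      push Not at hcon
      exact h (Fin.ext (Nat.eq_of_testBit_eq hcon))
    classical
    set s := Nat.find h1 with hs
    have hs1 : (a : ℕ).testBit s ≠ (c : ℕ).testBit s := Nat.find_spec h1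
    have hs2 : ∀ u < s, (a : ℕ).testBit u = (c : ℕ).testBit u := by
      intro u hu
      have := Nat.find_min h1 hu
      exact not_not.mp this
    have hsb : s < b := by
      by_contra hcon
      push Not at hcon
      apply hs1
      rw [Nat.testBit_lt_two_pow (lt_of_lt_of_le a.2 (Nat.pow_le_pow_right (by norm_num) hcon)),
        Nat.testBit_lt_two_pow (lt_of_lt_of_le c.2 (Nat.pow_le_pow_right (by norm_num) hcon))]
    refine ⟨some (⟨s, hsb⟩, (a : ℕ).testBit s), Or.inr ⟨_, _, rfl, hs2, rfl, ?_⟩⟩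
    simp only
    revert hs1
    cases (a : ℕ).testBit s <;> cases (c : ℕ).testBit s <;> simp

theorem PR_none {b : ℕ} {o : Option (Fin b × Bool)} {a c : Fin (2 ^ b)} (h : PR o a c) :
    o = none ↔ a = c := by
  rcases h with ⟨h1, h2⟩ | ⟨s, e, h1, _, h2, h3⟩
  · exact ⟨fun _ => h2, fun _ => h1⟩
  · constructor
    · intro h; rw [h1] at h; exact absurd h (by simp)
    · rintro rfl
      rw [h2] at h3
      exact absurd h3 (by cases e <;> simp)

theorem PR_unique {b : ℕ} {o o' : Option (Fin b × Bool)} {a c : Fin (2 ^ b)} (h : PR o a c)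
    (h' : PR o' a c) : o = o' := by
  by_cases hac : a = c
  · rw [(PR_none h).2 hac, (PR_none h').2 hac]
  · rcases h with ⟨_, h2⟩ | ⟨s, e, rfl, h1, h2, h3⟩
    · exact absurd h2 hac
    rcases h' with ⟨_, h2'⟩ | ⟨s', e', rfl, h1', h2', h3'⟩
    · exact absurd h2' hac
    have hs : s = s' := by
      rcases lt_trichotomy (s : ℕ) (s' : ℕ) with h | h | h
      · have := h1' s h
        rw [h2, h3] at this
        exact absurd this (by cases e <;> simp)
      · exact Fin.ext h
      · have := h1 s' h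
        rw [h2', h3'] at this
        exact absurd this (by cases e' <;> simp)
    subst hs
    rw [← h2, ← h2']

theorem PR_rect {b : ℕ} {o : Option (Fin b × Bool)} {a a' c c' : Fin (2 ^ b)} (h : PR o a c)
    (h1 : PR o a' c) (h2 : PR o a c') : PR o a' c' := by
  rcases h with ⟨rfl, h⟩ | ⟨s, e, rfl, g1, g2, g3⟩
  · left
    exact ⟨rfl, ((PR_none h1).1 rfl).trans (h.symm.trans ((PR_none h2).1 rfl))⟩
  · right
    rcases h1 with ⟨h1, _⟩ | ⟨s1, e1, h1, k1, k2, k3⟩
    · exact absurd h1 (by simp)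
    rcases h2 with ⟨h2, _⟩ | ⟨s2, e2, h2, l1, l2, l3⟩
    · exact absurd h2 (by simp)
    simp only [Option.some.injEq, Prod.mk.injEq] at h1 h2
    obtain ⟨rfl, rfl⟩ := h1
    obtain ⟨rfl, rfl⟩ := h2
    exact ⟨s, e, rfl, fun u hu => by rw [k1 u hu, ← g1 u hu, l1 u hu], k2, l3⟩

/-- the colours -/
abbrev CT (t b : ℕ) : Type := Fin t × (Fin (2 ^ b) × Fin (2 ^ b)) × (Fin t → Option (Fin b × Bool))

/-- the (oriented) pairs of colour `q` -/
def R {t b : ℕ} (q : CT t b) (x y : Fin t → Fin (2 ^ b)) : Prop :=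
  (∀ j < q.1, x j = y j) ∧ x q.1 = q.2.1.1 ∧ y q.1 = q.2.1.2 ∧ q.2.1.1 < q.2.1.2 ∧
    (∀ j ≤ q.1, q.2.2 j = none) ∧ ∀ j, q.1 < j → PR (q.2.2 j) (x j) (y j)

theorem R_exists' {t b : ℕ} {x y : Fin t → Fin (2 ^ b)} (i : Fin t) (h1 : ∀ j < i, x j = y j)
    (h2 : x i < y i) : ∃ q, R q x y := by
  choose p hp using fun j => PR_exists (x j) (y j)
  refine ⟨(i, (x i, y i), fun j => if j ≤ i then none else p j), h1, rfl, rfl, h2,
    fun j hj => if_pos hj, fun j hj => ?_⟩
  simp only at hj ⊢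
  rw [if_neg (not_le.mpr hj)]
  exact hp j

theorem R_exists {t b : ℕ} {x y : Fin t → Fin (2 ^ b)} (h : x ≠ y) :
    ∃ q, R q x y ∨ R q y x := by
  classical
  have h1 : ∃ i, x i ≠ y i := Function.ne_iff.mp h
  have h2 : (univ.filter (fun i => x i ≠ y i)).Nonempty := by
    obtain ⟨i, hi⟩ := h1
    exact ⟨i, by simpa using hi⟩
  set i := (univ.filter (fun i => x i ≠ y i)).min' h2 with hi
  have hi1 : x i ≠ y i := by
    have := Finset.min'_mem _ h2
    rw [mem_filter] at this
    exact this.2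
  have hi2 : ∀ j < i, x j = y j := by
    intro j hj
    by_contra hcon
    have := Finset.min'_le (univ.filter (fun i => x i ≠ y i)) j (by simpa using hcon)
    exact absurd hj (not_lt.mpr this)
  rcases lt_or_gt_of_ne hi1 with h3 | h3
  · obtain ⟨q, hq⟩ := R_exists' i hi2 h3
    exact ⟨q, Or.inl hq⟩
  · obtain ⟨q, hq⟩ := R_exists' i (fun j hj => (hi2 j hj).symm) h3
    exact ⟨q, Or.inr hq⟩

theorem R_ne {t b : ℕ} {q : CT t b} {x y : Fin t → Fin (2 ^ b)} (h : R q x y) :
    x q.1 ≠ y q.1 := by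
  obtain ⟨_, h2, h3, h4, _⟩ := h
  rw [h2, h3]
  exact h4.ne

theorem first_eq {t : ℕ} {α : Type} {x y : Fin t → α} {i i' : Fin t} (h1 : ∀ j < i, x j = y j)
    (h2 : x i ≠ y i) (h1' : ∀ j < i', x j = y j) (h2' : x i' ≠ y i') : i = i' := by
  rcases lt_trichotomy i i' with h | h | h
  · exact absurd (h1' i h) h2
  · exact h
  · exact absurd (h1 i' h) h2'

theorem R_unique {t b : ℕ} {q q' : CT t b} {x y : Fin t → Fin (2 ^ b)} (h : R q x y)
    (h' : R q' x y) : q = q' := by
  have e1 : q.1 = q'.1 := first_eq h.1 (R_ne h) h'.1 (R_ne h')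
  obtain ⟨i, ⟨a, c⟩, p⟩ := q
  obtain ⟨i', ⟨a', c'⟩, p'⟩ := q'
  simp only at e1
  subst e1
  obtain ⟨_, h2, h3, _, h5, h6⟩ := h
  obtain ⟨_, h2', h3', _, h5', h6'⟩ := h'
  simp only at h2 h3 h5 h6 h2' h3' h5' h6'
  refine Prod.ext rfl (Prod.ext (Prod.ext (h2.symm.trans h2') (h3.symm.trans h3')) ?_)
  funext j
  simp only
  rcases le_or_gt j i with hj | hj
  · rw [h5 j hj, h5' j hj]
  · exact PR_unique (h6 j hj) (h6' j hj)

theorem R_asymm {t b : ℕ} {q q' : CT t b} {x y : Fin t → Fin (2 ^ b)} (h : R q x y)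
    (h' : R q' y x) : False := by
  have e1 : q.1 = q'.1 := first_eq h.1 (R_ne h) (fun j hj => (h'.1 j hj).symm) (R_ne h').symm
  obtain ⟨_, h2, h3, h4, _⟩ := h
  obtain ⟨_, h2', h3', h4', _⟩ := h'
  rw [← e1] at h2' h3'
  rw [h2] at h3'
  rw [h3] at h2'
  rw [← h3', ← h2'] at h4'
  exact absurd h4 (not_lt.mpr h4'.le)

theorem R_side {t b : ℕ} {q : CT t b} {x y z : Fin t → Fin (2 ^ b)} (h : R q x y)
    (h' : R q y z) : False := by
  obtain ⟨_, _, h3, h4, _⟩ := h
  obtain ⟨_, h2', _, _, _⟩ := h'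
  rw [h3] at h2'
  exact h4.ne' h2'

theorem R_rect {t b : ℕ} {q : CT t b} {x x' y y' : Fin t → Fin (2 ^ b)} (h : R q x y)
    (h1 : R q x' y) (h2 : R q x y') : R q x' y' := by
  obtain ⟨a1, a2, a3, a4, a5, a6⟩ := h
  obtain ⟨b1, b2, b3, b4, b5, b6⟩ := h1
  obtain ⟨c1, c2, c3, c4, c5, c6⟩ := h2
  exact ⟨fun j hj => by rw [b1 j hj, ← a1 j hj, c1 j hj], b2, c3, a4, a5,
    fun j hj => PR_rect (a6 j hj) (b6 j hj) (c6 j hj)⟩

theorem col_eq {t : ℕ} {x y : ℕ → ℕ} {i : ℕ} (hit : i < t) (h1 : ∀ j < i, x j = y j)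
    (h2 : x i ≠ y i) : col t 1 t x y = fun j => if j < t then
      (if x j = y j then none else if j = i then some (some ({x i, y i}, fun _ => 0))
        else some none) else none := by
  funext j
  unfold col
  split_ifs with hj hxy hji
  · unfold info
    rw [if_pos hxy]
  · subst hji
    have hlv : lv t 1 j x y = 1 := by
      apply le_antisymm (lv_le _ _ _ _ _)
      rw [← ag_iff le_rfl]
      intro u hu _
      exact h1 u hu
    unfold info
    rw [if_neg hxy, hlv, if_neg (by norm_num)]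
    congr 3
    funext u
    unfold win
    rw [if_neg]
    rintro ⟨h3, h4⟩
    simp only [Nat.sub_self, pow_zero, Nat.div_one] at h4
    omega
  · have hlv : lv t 1 j x y = 0 := by
      have hle := lv_le t 1 j x y
      rcases Nat.lt_or_ge (lv t 1 j x y) 1 with h3 | h3
      · omega
      · have hag : ag t 1 j x y := (ag_iff le_rfl).2 h3
        exfalso
        rcases lt_trichotomy j i with h | h | h
        · exact hxy (h1 j h)
        · exact hji h
        · refine h2 (hag i h ?_)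
          rw [pow_one, Nat.div_eq_of_lt hit, Nat.div_eq_of_lt hj]
    unfold info
    rw [if_neg hxy, if_pos hlv]
  · rfl

theorem R_col {t b : ℕ} {q : CT t b} {x y x' y' : Fin t → Fin (2 ^ b)} (h : R q x y)
    (h' : R q x' y') : col t 1 t (ext x) (ext y) = col t 1 t (ext x') (ext y') := by
  have hx : ∀ (z : Fin t → Fin (2 ^ b)) (j : Fin t), ext z j = (z j : ℕ) := by
    intro z j
    unfold Pool.Agent.Helper73_EG.ext
    rw [dif_pos j.2]
  have key : ∀ x y : Fin t → Fin (2 ^ b), R q x y → col t 1 t (ext x) (ext y) = fun j =>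
      if h : j < t then (if j < (q.1 : ℕ) then none else if j = (q.1 : ℕ) then
        some (some ({(q.2.1.1 : ℕ), (q.2.1.2 : ℕ)}, fun _ => 0)) else
        if q.2.2 ⟨j, h⟩ = none then none else some none) else none := by
    intro x y h
    obtain ⟨h1, h2, h3, h4, h5, h6⟩ := h
    have g1 : ∀ j < (q.1 : ℕ), Pool.Agent.Helper73_EG.ext x j = Pool.Agent.Helper73_EG.ext y j := by
      intro j hj
      rw [hx x ⟨j, hj.trans q.1.2⟩, hx y ⟨j, hj.trans q.1.2⟩, h1 ⟨j, hj.trans q.1.2⟩ hj]
    have g2 : Pool.Agent.Helper73_EG.ext x (q.1 : ℕ) ≠ Pool.Agent.Helper73_EG.ext y (q.1 : ℕ) := by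
      rw [hx x q.1, hx y q.1, h2, h3]
      intro hh
      exact h4.ne (Fin.ext hh)
    rw [col_eq q.1.2 g1 g2]
    · funext j
      by_cases hj : j < t
      · rw [if_pos hj, dif_pos hj, hx x ⟨j, hj⟩, hx y ⟨j, hj⟩, hx x q.1, hx y q.1, h2, h3]
        rcases lt_trichotomy j (q.1 : ℕ) with h7 | h7 | h7
        · rw [if_pos h7, if_pos]
          rw [h1 ⟨j, hj⟩ h7]
        · subst h7
          rw [if_neg (lt_irrefl _), if_pos rfl, if_pos rfl, if_neg]
          rw [h2, h3]
          intro hh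
          exact h4.ne (Fin.ext hh)
        · rw [if_neg (not_lt.mpr h7.le), if_neg h7.ne', if_neg h7.ne']
          have h8 := PR_none (h6 ⟨j, hj⟩ h7)
          by_cases h9 : q.2.2 ⟨j, hj⟩ = none
          · rw [if_pos h9, if_pos]
            rw [h8.1 h9]
          · rw [if_neg h9, if_neg]
            intro hh
            exact h9 (h8.2 (Fin.ext hh))
      · rw [if_neg hj, dif_neg hj]
  rw [key x y h, key x' y' h']

theorem card_CT (t b : ℕ) : Fintype.card (CT t b) = t * (2 ^ b * 2 ^ b) * (2 * b + 1) ^ t := by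
  simp only [CT, Fintype.card_prod, Fintype.card_fin, Fintype.card_pi, Fintype.card_option,
    Fintype.card_bool, Finset.prod_const, card_univ]
  ring

/-- **The colouring.** -/
theorem colouring (t b k n : ℕ) (ht : 1 ≤ t)
    (hk : t * (2 ^ b * 2 ^ b) * (2 * b + 1) ^ t ≤ k) (hn : n ≤ 2 ^ (b * t)) :
    ∃ c : Fin n → Fin n → Fin k, (∀ x y, c x y = c y x) ∧
      (∀ x x' y y', x ≠ y → x' ≠ y → x ≠ y' → c x' y = c x y → c x y' = c x y →
        x' ≠ y' ∧ c x' y' = c x y) ∧
      ∀ S : Finset (Fin n), S.card < 8 →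
        S.card ≤ (S.offDiag.image (fun e => c e.1 e.2)).card + 1 := by
  classical
  obtain ⟨φ⟩ : Nonempty (Fin n ↪ (Fin t → Fin (2 ^ b))) := by
    apply Function.Embedding.nonempty_of_card_le
    simp only [Fintype.card_fin, Fintype.card_pi, Finset.prod_const, card_univ]
    rwa [← pow_mul]
  obtain ⟨ψ⟩ : Nonempty (CT t b ↪ Fin k) := by
    apply Function.Embedding.nonempty_of_card_le
    rw [card_CT, Fintype.card_fin]
    exact hk
  have h0 : ∀ x y : Fin t → Fin (2 ^ b), ∃ q : CT t b, x ≠ y → (R q x y ∨ R q y x) := by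
    intro x y
    by_cases h : x = y
    · exact ⟨(⟨0, ht⟩, (x ⟨0, ht⟩, x ⟨0, ht⟩), fun _ => none), fun h' => absurd h h'⟩
    · obtain ⟨q, hq⟩ := R_exists h
      exact ⟨q, fun _ => hq⟩
  choose Q hQ using h0
  have huniq : ∀ (q : CT t b) (x y : Fin t → Fin (2 ^ b)), (R q x y ∨ R q y x) → Q x y = q := by
    intro q x y h
    have hxy : x ≠ y := by
      rintro rfl
      rcases h with h | h <;> exact R_ne h rfl
    rcases hQ x y hxy with h1 | h1 <;> rcases h with h2 | h2
    · exact R_unique h1 h2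
    · exact (R_asymm h1 h2).elim
    · exact (R_asymm h1 h2).elim
    · exact R_unique h1 h2
  have hsymm : ∀ x y, Q x y = Q y x := by
    intro x y
    by_cases h : x = y
    · rw [h]
    · exact huniq _ x y ((hQ y x (Ne.symm h)).symm)
  have hne : ∀ {v w : Fin n}, v ≠ w → φ v ≠ φ w := fun h h' => h (φ.injective h')
  refine ⟨fun v w => ψ (Q (φ v) (φ w)), fun v w => congrArg ψ (hsymm _ _), ?_, ?_⟩
  · intro x x' y y' hxy hx'y hxy' e1 e2
    have e1' : Q (φ x') (φ y) = Q (φ x) (φ y) := ψ.injective e1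
    have e2' : Q (φ x) (φ y') = Q (φ x) (φ y) := ψ.injective e2
    have h1 := hQ _ _ (hne hxy)
    have h2 := hQ _ _ (hne hx'y)
    have h3 := hQ _ _ (hne hxy')
    rw [e1'] at h2
    rw [e2'] at h3
    have h4 : R (Q (φ x) (φ y)) (φ x') (φ y') ∨ R (Q (φ x) (φ y)) (φ y') (φ x') := by
      rcases h1 with h1 | h1
      · have h2' := h2.resolve_right (fun h => R_side h1 h)
        have h3' := h3.resolve_right (fun h => R_side h h1)
        exact Or.inl (R_rect h1 h2' h3')
      · have h2' := h2.resolve_left (fun h => R_side h h1)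
        have h3' := h3.resolve_left (fun h => R_side h1 h)
        exact Or.inr (R_rect h1 h3' h2')
    refine ⟨?_, congrArg ψ (huniq _ _ _ h4)⟩
    rintro rfl
    rcases h4 with h | h <;> exact R_ne h rfl
  · intro S hS
    let X : Fin n → ℕ → ℕ := fun v => ext (φ v)
    have hXinj : Function.Injective X := fun v w h => φ.injective (ext_inj h)
    have hgood := good_col t 1 le_rfl t (by rw [pow_one]) (S.image X) (by
      intro x hx i hi
      rw [mem_image] at hx
      obtain ⟨v, _, rfl⟩ := hx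
      exact (ext_bd (by positivity) (φ v)).2 i hi) (by
      rw [card_image_of_injective _ hXinj]; omega)
    rw [card_image_of_injective _ hXinj] at hgood
    refine hgood.trans (Nat.add_le_add_right ?_ 1)
    refine card_le_card_of_forall_subsingleton
      (fun l l' => ∃ v w, v ≠ w ∧ ψ (Q (φ v) (φ w)) = l' ∧ col t 1 t (X v) (X w) = l) ?_ ?_
    · intro l hl
      rw [mem_labs] at hl
      obtain ⟨x, hx, y, hy, hxy, rfl⟩ := hl
      rw [mem_image] at hx hy
      obtain ⟨v, hv, rfl⟩ := hx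
      obtain ⟨w, hw, rfl⟩ := hy
      have hvw : v ≠ w := fun h => hxy (by rw [h])
      refine ⟨ψ (Q (φ v) (φ w)), ?_, v, w, hvw, rfl, rfl⟩
      rw [mem_image]
      exact ⟨(v, w), mem_offDiag.2 ⟨hv, hw, hvw⟩, rfl⟩
    · intro l' _ l1 hl1 l2 hl2
      obtain ⟨_, v, w, hvw, h1, rfl⟩ := hl1
      obtain ⟨_, v', w', hvw', h2, rfl⟩ := hl2
      have h3 : Q (φ v) (φ w) = Q (φ v') (φ w') := ψ.injective (h1.trans h2.symm)
      have h4 := hQ _ _ (hne hvw)
      have h5 := hQ _ _ (hne hvw')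
      rw [← h3] at h5
      rcases h4 with h4 | h4 <;> rcases h5 with h5 | h5
      · exact R_col h4 h5
      · rw [col_symm (x := X v')]
        exact R_col h4 h5
      · rw [col_symm (x := X v)]
        exact R_col h4 h5
      · rw [col_symm (x := X v), col_symm (x := X v')]
        exact R_col h4 h5

end Pool.Agent.Helper10_VCL
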