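import Mathlib
import Pool.Agent.Helper10_VCL.Col

/-! The refined window colouring: its classes are disjoint unions of complete bipartite graphs. -/

set_option autoImplicit false

namespace Pool.Agent.Helper10_VCL

open Finset Pool.Agent.Helper73_EG

/-- codes are rectangular -/
theorem code_rect {m t r : ℕ} {x x' y y' : ℕ → ℕ} (h1 : ∀ i, x' i = y i ↔ x i = y i)
    (h2 : ∀ i, x i = y' i ↔ x i = y i) (h3 : ∀ i, x' i = y' i ↔ x i = y i)
    (e1 : code m t r x' y = code m t r x y) (e2 : code m t r x y' = code m t r x y) :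
    code m t r x' y' = code m t r x y := by
  have f1 : ∀ j β, fd t j β x' y = fd t j β x y := fun j β => fd_congr h1
  have f2 : ∀ j β, fd t j β x y' = fd t j β x y := fun j β => fd_congr h2
  have f3 : ∀ j β, fd t j β x' y' = fd t j β x y := fun j β => fd_congr h3
  refine Prod.ext ?_ (Prod.ext ?_ ?_)
  · funext i
    simp only [code]
    rw [decide_eq_decide]
    exact h3 i
  · funext β
    have g1 := congrFun (congrArg (fun z => z.2.1) e1) β
    have g2 := congrFun (congrArg (fun z => z.2.1) e2) β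
    simp only [code, f1, f2, f3, Prod.mk.injEq] at g1 g2 ⊢
    exact ⟨g1.1, g2.2⟩
  · funext j k
    have g1 := congrFun (congrFun (congrArg (fun z => z.2.2) e1) j) k
    simp only [code, f1, f3] at g1 ⊢
    exact g1

/-- the code determines the letters at the first difference -/
theorem code_first {m t r : ℕ} (hr : 1 ≤ r) {x y x' y' : ℕ → ℕ} {i : ℕ} (hi : i < t ^ r)
    (hag : ∀ j < i, x j = y j) (hne : x i ≠ y i) (hD : ∀ i, x' i = y' i ↔ x i = y i)
    (e : code m t r x' y' = code m t r x y) : x' i = x i ∧ y' i = y i := by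
  have a1 : ag t 1 i x y := fun j hj _ => hag j hj
  have ht : 0 < t ^ 1 := by
    rw [pow_one]
    rcases Nat.eq_zero_or_pos t with h | h
    · subst h; rw [zero_pow (by omega)] at hi; omega
    · exact h
  have hblk : i / t ^ 1 < t ^ (r - 1) := by
    rw [Nat.div_lt_iff_lt_mul ht, ← pow_add]
    rwa [Nat.sub_add_cancel hr]
  have e1 := congrFun (congrArg (fun z => z.2.1) e) ⟨i / t ^ 1, hblk⟩
  simp only [code] at e1
  rw [fd_congr hD, fd_eq hne a1] at e1
  exact ⟨congrArg Prod.fst e1, congrArg Prod.snd e1⟩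

/-- the pattern of the first different bits -/
noncomputable def Pf {T b : ℕ} (x y : Fin T → Fin (2 ^ b)) : Fin T → Option (Fin b × Bool) :=
  fun j => (PR_exists (x j) (y j)).choose

theorem Pf_spec {T b : ℕ} (x y : Fin T → Fin (2 ^ b)) (j : Fin T) :
    PR (Pf x y j) (x j) (y j) := (PR_exists (x j) (y j)).choose_spec

/-- lexicographic order -/
def LO {T b : ℕ} (x y : Fin T → Fin (2 ^ b)) : Prop := ∃ i, (∀ j < i, x j = y j) ∧ x i < y i

theorem LO_total {T b : ℕ} {x y : Fin T → Fin (2 ^ b)} (h : x ≠ y) : LO x y ∨ LO y x := by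
  obtain ⟨i, hi⟩ : ∃ i, x i ≠ y i := Function.ne_iff.mp h
  classical
  have h2 : (univ.filter (fun i => x i ≠ y i)).Nonempty := ⟨i, by simpa using hi⟩
  set i := (univ.filter (fun i => x i ≠ y i)).min' h2 with hi
  have hi1 : x i ≠ y i := by
    have := Finset.min'_mem _ h2
    rw [mem_filter] at this
    exact this.2
  have hi2 : ∀ j < i, x j = y j := by
    intro j hj
    by_contra hcon
    have := Finset.min'_le (univ.filter (fun i => x i ≠ y i)) j (by simpa using hcon)
    exact absurd hj (not_lt.mpr this)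
  rcases lt_or_gt_of_ne hi1 with h3 | h3
  · exact Or.inl ⟨i, hi2, h3⟩
  · exact Or.inr ⟨i, fun j hj => (hi2 j hj).symm, h3⟩

theorem LO_asymm {T b : ℕ} {x y : Fin T → Fin (2 ^ b)} (h : LO x y) (h' : LO y x) : False := by
  obtain ⟨i, h1, h2⟩ := h
  obtain ⟨i', h1', h2'⟩ := h'
  have := first_eq h1 h2.ne (fun j hj => (h1' j hj).symm) h2'.ne'
  subst this
  exact absurd h2 (not_lt.mpr h2'.le)

section
variable {t r b : ℕ}

theorem ext_at {T m : ℕ} (z : Fin T → Fin m) (j : Fin T) :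
    Pool.Agent.Helper73_EG.ext z j = (z j : ℕ) := by
  unfold Pool.Agent.Helper73_EG.ext
  rw [dif_pos j.2]

theorem ext_eq_iff {T m : ℕ} (x y x' y' : Fin T → Fin m) (h : ∀ j, x j = y j ↔ x' j = y' j) (i : ℕ) :
    Pool.Agent.Helper73_EG.ext x i = Pool.Agent.Helper73_EG.ext y i ↔
      Pool.Agent.Helper73_EG.ext x' i = Pool.Agent.Helper73_EG.ext y' i := by
  by_cases hi : i < T
  · have h1 := ext_at x ⟨i, hi⟩
    have h2 := ext_at y ⟨i, hi⟩
    have h3 := ext_at x' ⟨i, hi⟩
    have h4 := ext_at y' ⟨i, hi⟩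
    simp only at h1 h2 h3 h4
    rw [h1, h2, h3, h4, ← Fin.ext_iff, ← Fin.ext_iff]
    exact h _
  · unfold Pool.Agent.Helper73_EG.ext
    rw [dif_neg hi, dif_neg hi, dif_neg hi, dif_neg hi]

/-- the colour of an oriented pair -/
noncomputable def qq (t r b : ℕ) (x y : Fin (t ^ r) → Fin (2 ^ b)) :
    ((Fin (t ^ r) → Bool) × (Fin (t ^ (r - 1)) → Fin (2 ^ b) × Fin (2 ^ b)) ×
      (Fin r → Fin (t ^ (r - 1)) → Fin (2 ^ b))) × (Fin (t ^ r) → Option (Fin b × Bool)) :=
  (codeF (2 ^ b) t r (Pool.Agent.Helper73_EG.ext x) (Pool.Agent.Helper73_EG.ext y), Pf x y)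

theorem qq_code {x y x' y' : Fin (t ^ r) → Fin (2 ^ b)} (h : qq t r b x y = qq t r b x' y') :
    code (2 ^ b) t r (Pool.Agent.Helper73_EG.ext x) (Pool.Agent.Helper73_EG.ext y) =
      code (2 ^ b) t r (Pool.Agent.Helper73_EG.ext x') (Pool.Agent.Helper73_EG.ext y') :=
  code_of_codeF (ext_bd (by positivity) _) (ext_bd (by positivity) _) (ext_bd (by positivity) _)
    (ext_bd (by positivity) _) (congrArg Prod.fst h)

theorem qq_iff {x y x' y' : Fin (t ^ r) → Fin (2 ^ b)} (h : qq t r b x y = qq t r b x' y')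
    (j : Fin (t ^ r)) : x j = y j ↔ x' j = y' j := by
  have h1 : Pf x y j = Pf x' y' j := congrFun (congrArg Prod.snd h) j
  rw [← PR_none (Pf_spec x y j), ← PR_none (Pf_spec x' y' j), h1]

/-- letters at the first difference -/
theorem qq_first (hr : 1 ≤ r) {x y x' y' : Fin (t ^ r) → Fin (2 ^ b)}
    (h : qq t r b x' y' = qq t r b x y) {i : Fin (t ^ r)} (h1 : ∀ j < i, x j = y j)
    (h2 : x i ≠ y i) : x' i = x i ∧ y' i = y i := by
  have h3 := code_first (m := 2 ^ b) (t := t) hr (x := Pool.Agent.Helper73_EG.ext x)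
    (y := Pool.Agent.Helper73_EG.ext y) (x' := Pool.Agent.Helper73_EG.ext x')
    (y' := Pool.Agent.Helper73_EG.ext y') (i := (i : ℕ)) i.2 (by
      intro j hj
      have e1 := ext_at x ⟨j, hj.trans i.2⟩
      have e2 := ext_at y ⟨j, hj.trans i.2⟩
      simp only at e1 e2
      rw [e1, e2, h1 ⟨j, hj.trans i.2⟩ hj]) (by
      rw [ext_at, ext_at]
      intro hh
      exact h2 (Fin.ext hh)) (fun j => ext_eq_iff _ _ _ _ (qq_iff h) j) (qq_code h)
  rw [ext_at, ext_at, ext_at, ext_at] at h3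
  exact ⟨Fin.ext h3.1, Fin.ext h3.2⟩

theorem qq_side (hr : 1 ≤ r) {x y z : Fin (t ^ r) → Fin (2 ^ b)} (hxy : LO x y ∨ LO y x)
    (h : qq t r b y z = qq t r b x y) : False := by
  rcases hxy with ⟨i, h1, h2⟩ | ⟨i, h1, h2⟩
  · exact h2.ne ((qq_first hr h h1 h2.ne).1).symm
  · exact h2.ne ((qq_first hr h (fun j hj => (h1 j hj).symm) h2.ne').1)

theorem qq_rect {x x' y y' : Fin (t ^ r) → Fin (2 ^ b)}
    (h1 : qq t r b x' y = qq t r b x y) (h2 : qq t r b x y' = qq t r b x y) :
    qq t r b x' y' = qq t r b x y := by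
  have g1 : ∀ j, Pf x' y' j = Pf x y j := by
    intro j
    have a1 : Pf x' y j = Pf x y j := congrFun (congrArg Prod.snd h1) j
    have a2 : Pf x y' j = Pf x y j := congrFun (congrArg Prod.snd h2) j
    have b1 := Pf_spec x' y j
    have b2 := Pf_spec x y' j
    rw [a1] at b1
    rw [a2] at b2
    exact PR_unique (Pf_spec x' y' j) (PR_rect (Pf_spec x y j) b1 b2)
  have g2 : ∀ j, x' j = y' j ↔ x j = y j := by
    intro j
    rw [← PR_none (Pf_spec x' y' j), ← PR_none (Pf_spec x y j), g1]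
  have g3 := code_rect (m := 2 ^ b) (t := t) (r := r) (fun i => ext_eq_iff _ _ _ _ (qq_iff h1) i)
    (fun i => ext_eq_iff _ _ _ _ (qq_iff h2) i) (fun i => ext_eq_iff _ _ _ _ g2 i)
    (qq_code h1) (qq_code h2)
  refine Prod.ext ?_ (funext g1)
  simp only [qq, codeF, g3]

theorem LO_rect (hr : 1 ≤ r) {x y x' y' : Fin (t ^ r) → Fin (2 ^ b)}
    (h : qq t r b x' y' = qq t r b x y) (hxy : LO x y) : LO x' y' := by
  obtain ⟨i, h1, h2⟩ := hxy
  obtain ⟨h3, h4⟩ := qq_first hr h h1 h2.ne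
  exact ⟨i, fun j hj => (qq_iff h j).2 (h1 j hj), by rw [h3, h4]; exact h2⟩

end

/-- **The colouring.** -/
theorem colouringR (r t b k n : ℕ) (hr : 1 ≤ r) (ht : 1 ≤ t)
    (hk : 2 ^ (t ^ r) * ((2 ^ b * 2 ^ b) ^ (t ^ (r - 1)) * ((2 ^ b) ^ (t ^ (r - 1))) ^ r) *
      (2 * b + 1) ^ (t ^ r) ≤ k)
    (hn : n ≤ (2 ^ b) ^ (t ^ r)) :
    ∃ c : Fin n → Fin n → Fin k, (∀ x y, c x y = c y x) ∧
      (∀ x x' y y', x ≠ y → x' ≠ y → x ≠ y' → c x' y = c x y → c x y' = c x y →
        x' ≠ y' ∧ c x' y' = c x y) ∧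
      ∀ S : Finset (Fin n), S.card < 2 ^ (r + 2) →
        S.card ≤ (S.offDiag.image (fun e => c e.1 e.2)).card + 1 := by
  classical
  obtain ⟨φ⟩ : Nonempty (Fin n ↪ (Fin (t ^ r) → Fin (2 ^ b))) := by
    apply Function.Embedding.nonempty_of_card_le
    simp only [Fintype.card_fin, Fintype.card_pi, Finset.prod_const, card_univ]
    exact hn
  obtain ⟨ψ⟩ : Nonempty ((((Fin (t ^ r) → Bool) × (Fin (t ^ (r - 1)) → Fin (2 ^ b) × Fin (2 ^ b)) ×
      (Fin r → Fin (t ^ (r - 1)) → Fin (2 ^ b))) × (Fin (t ^ r) → Option (Fin b × Bool))) ↪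
        Fin k) := by
    apply Function.Embedding.nonempty_of_card_le
    rw [Fintype.card_prod, card_code, Fintype.card_fin]
    refine le_trans (le_of_eq ?_) hk
    congr 1
    simp only [Fintype.card_fin, Fintype.card_pi, Finset.prod_const, card_univ,
      Fintype.card_option, Fintype.card_prod, Fintype.card_bool]
    congr 1
    ring
  let Q : (Fin (t ^ r) → Fin (2 ^ b)) → (Fin (t ^ r) → Fin (2 ^ b)) → Fin k :=
    fun x y => if LO x y then ψ (qq t r b x y) else ψ (qq t r b y x)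
  have hQ : ∀ x y, x ≠ y → (LO x y ∧ Q x y = ψ (qq t r b x y)) ∨
      (LO y x ∧ Q x y = ψ (qq t r b y x)) := by
    intro x y hxy
    by_cases h : LO x y
    · exact Or.inl ⟨h, by simp only [Q, if_pos h]⟩
    · exact Or.inr ⟨(LO_total hxy).resolve_left h, by simp only [Q, if_neg h]⟩
  have hQ1 : ∀ x y, LO x y → Q x y = ψ (qq t r b x y) := fun x y h => if_pos h
  have hQ2 : ∀ x y, LO y x → Q x y = ψ (qq t r b y x) := fun x y h =>
    if_neg (fun h' => LO_asymm h' h)
  have hsymm : ∀ x y, Q x y = Q y x := by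
    intro x y
    by_cases h : x = y
    · rw [h]
    · rcases LO_total h with h1 | h1
      · rw [hQ1 x y h1, hQ2 y x h1]
      · rw [hQ2 x y h1, hQ1 y x h1]
  have hne : ∀ {v w : Fin n}, v ≠ w → φ v ≠ φ w := fun h h' => h (φ.injective h')
  refine ⟨fun v w => Q (φ v) (φ w), fun v w => hsymm _ _, ?_, ?_⟩
  · intro x x' y y' hxy hx'y hxy' e1 e2
    simp only at e1 e2
    have hfin : ∀ {z w : Fin n}, LO (φ z) (φ w) ∨ LO (φ w) (φ z) → z ≠ w := by
      rintro z w h rfl
      rcases h with h | h <;> exact LO_asymm h h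
    rcases hQ _ _ (hne hxy) with ⟨l1, q1⟩ | ⟨l1, q1⟩
    · rcases hQ _ _ (hne hx'y) with ⟨l2, q2⟩ | ⟨l2, q2⟩
      · rcases hQ _ _ (hne hxy') with ⟨l3, q3⟩ | ⟨l3, q3⟩
        · have h1 := ψ.injective (q2.symm.trans (e1.trans q1))
          have h2 := ψ.injective (q3.symm.trans (e2.trans q1))
          have h3 := qq_rect h1 h2
          have h4 := LO_rect hr h3 l1
          exact ⟨hfin (Or.inl h4), by simp only; rw [hQ1 _ _ h4, h3, q1]⟩
        · exfalso
          have h2 := ψ.injective (q3.symm.trans (e2.trans q1))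
          exact qq_side hr (Or.inl l3) h2.symm
      · exfalso
        have h1 := ψ.injective (q2.symm.trans (e1.trans q1))
        exact qq_side hr (Or.inl l1) h1
    · rcases hQ _ _ (hne hx'y) with ⟨l2, q2⟩ | ⟨l2, q2⟩
      · exfalso
        have h1 := ψ.injective (q2.symm.trans (e1.trans q1))
        exact qq_side hr (Or.inl l2) h1.symm
      · rcases hQ _ _ (hne hxy') with ⟨l3, q3⟩ | ⟨l3, q3⟩
        · exfalso
          have h2 := ψ.injective (q3.symm.trans (e2.trans q1))
          exact qq_side hr (Or.inl l1) h2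
        · have h1 := ψ.injective (q2.symm.trans (e1.trans q1))
          have h2 := ψ.injective (q3.symm.trans (e2.trans q1))
          have h3 := qq_rect h2 h1
          have h4 := LO_rect hr h3 l1
          exact ⟨hfin (Or.inr h4), by simp only; rw [hQ2 _ _ h4, h3, q1]⟩
  · intro S hS
    let X : Fin n → ℕ → ℕ := fun v => Pool.Agent.Helper73_EG.ext (φ v)
    have hXinj : Function.Injective X := fun v w h => φ.injective (ext_inj h)
    have hXbd : ∀ v, Bd (2 ^ b) (t ^ r) (X v) := fun v => ext_bd (by positivity) _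
    have hgood := good_col t r hr (t ^ r) le_rfl (S.image X) (by
      intro x hx i hi
      rw [mem_image] at hx
      obtain ⟨v, _, rfl⟩ := hx
      exact (hXbd v).2 i hi) (by
      rw [card_image_of_injective _ hXinj]; omega)
    rw [card_image_of_injective _ hXinj] at hgood
    have hcol : ∀ {v w v' w' : Fin n}, qq t r b (φ v) (φ w) = qq t r b (φ v') (φ w') →
        col t r (t ^ r) (X v) (X w) = col t r (t ^ r) (X v') (X w') := by
      intro v w v' w' h
      exact col_of_code (m := 2 ^ b) ht hr (hXbd _) (hXbd _) (hXbd _) (hXbd _) (qq_code h)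
    refine hgood.trans (Nat.add_le_add_right ?_ 1)
    refine card_le_card_of_forall_subsingleton
      (fun l l' => ∃ v w, v ≠ w ∧ Q (φ v) (φ w) = l' ∧ col t r (t ^ r) (X v) (X w) = l) ?_ ?_
    · intro l hl
      rw [mem_labs] at hl
      obtain ⟨x, hx, y, hy, hxy, rfl⟩ := hl
      rw [mem_image] at hx hy
      obtain ⟨v, hv, rfl⟩ := hx
      obtain ⟨w, hw, rfl⟩ := hy
      have hvw : v ≠ w := fun h => hxy (by rw [h])
      refine ⟨Q (φ v) (φ w), ?_, v, w, hvw, rfl, rfl⟩
      rw [mem_image]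
      exact ⟨(v, w), mem_offDiag.2 ⟨hv, hw, hvw⟩, rfl⟩
    · intro l' _ l1 hl1 l2 hl2
      obtain ⟨_, v, w, hvw, h1, rfl⟩ := hl1
      obtain ⟨_, v', w', hvw', h2, rfl⟩ := hl2
      have h3 := h1.trans h2.symm
      rcases hQ _ _ (hne hvw) with ⟨_, q1⟩ | ⟨_, q1⟩ <;>
        rcases hQ _ _ (hne hvw') with ⟨_, q2⟩ | ⟨_, q2⟩ <;>
        rw [q1, q2] at h3 <;> have h4 := hcol (ψ.injective h3)
      · exact h4
      · rw [col_symm (x := X v')]; exact h4
      · rw [col_symm (x := X v)]; exact h4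
      · rw [col_symm (x := X v), col_symm (x := X v')]; exact h4

end Pool.Agent.Helper10_VCL
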