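import Mathlib
import Pool.Agent.Helper34_VC.Defs
import Pool.Agent.Helper10_VCL.Col

/-! The lower bound for colour classes of VC-dimension one. -/

set_option autoImplicit false

namespace Pool.Agent.Helper10_VCL

open Finset Pool.Agent.Helper34_VC

theorem not_forcesVC {t b k n p d : ℕ} (ht : 1 ≤ t) (hd : 1 ≤ d) (hp : 2 ≤ p) (hp' : p ≤ 7)
    (hk : t * (2 ^ b * 2 ^ b) * (2 * b + 1) ^ t ≤ k) (hF : ForcesVC d p k n) :
    2 ^ (b * t) < n := by
  by_contra hn
  push Not at hn
  obtain ⟨c, hc, hrect, hgood⟩ := colouring t b k n ht hk hn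
  obtain ⟨S, hSp, hS⟩ := hF c hc (by
    intro q
    refine le_trans ?_ hd
    unfold Finset.vcDim
    refine Finset.sup_le (fun T hT => ?_)
    rw [Finset.mem_shatterer] at hT
    by_contra hcard
    push Not at hcard
    obtain ⟨u, hu, v, hv, huv⟩ := Finset.one_lt_card.mp hcard
    obtain ⟨A1, hA1, h1⟩ := hT (t := {u}) (Finset.singleton_subset_iff.2 hu)
    obtain ⟨A2, hA2, h2⟩ := hT (t := {u, v}) (by
      intro z hz
      rw [mem_insert, mem_singleton] at hz
      rcases hz with rfl | rfl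
      · exact hu
      · exact hv)
    rw [mem_image] at hA1 hA2
    obtain ⟨x1, _, rfl⟩ := hA1
    obtain ⟨x2, _, rfl⟩ := hA2
    have m1 : u ∈ nbr c q x1 := by
      have : u ∈ T ∩ nbr c q x1 := by rw [h1]; exact mem_singleton_self _
      exact (mem_inter.1 this).2
    have m2 : u ∈ nbr c q x2 := by
      have : u ∈ T ∩ nbr c q x2 := by rw [h2]; exact mem_insert_self _ _
      exact (mem_inter.1 this).2
    have m3 : v ∈ nbr c q x2 := by
      have : v ∈ T ∩ nbr c q x2 := by
        rw [h2]; exact mem_insert_of_mem (mem_singleton_self _)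
      exact (mem_inter.1 this).2
    unfold nbr at m1 m2 m3
    rw [mem_filter] at m1 m2 m3
    obtain ⟨h3, h4⟩ := hrect x2 x1 u v m2.2.1.symm m1.2.1.symm m3.2.1.symm
      (m1.2.2.trans m2.2.2.symm) (m3.2.2.trans m2.2.2.symm)
    have m4 : v ∈ T ∩ nbr c q x1 := by
      rw [mem_inter]
      refine ⟨hv, ?_⟩
      unfold nbr
      rw [mem_filter]
      exact ⟨mem_univ _, h3.symm, h4.trans m2.2.2⟩
    rw [h1, mem_singleton] at m4
    exact huv m4.symm)
  have := hgood S (by omega)
  omega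

theorem pow_big (h : ℕ) (hh : 5 ≤ h) : 4 * h + 3 < 2 ^ h := by
  induction h, hh using Nat.le_induction with
  | base => norm_num
  | succ h _ ih => rw [pow_succ]; omega

/-- **The lower bound.** -/
theorem lower : ∃ c : ℝ, 0 < c ∧ ∃ k₀ : ℕ, ∀ k : ℕ, k₀ ≤ k → ∀ p : ℕ, 4 ≤ p → p ≤ 7 →
    ∀ d : ℕ, 1 ≤ d → ∀ n : ℕ, ForcesVC d p k n →
      Real.exp (c * (Real.log k) ^ 2 / Real.log (Real.log k)) ≤ n := by
  have hl2 : 0 < Real.log 2 := Real.log_pos (by norm_num)
  have hl2' : Real.log 2 < 0.6931471808 := Real.log_two_lt_d9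
  have hl2'' : 0.6931471803 < Real.log 2 := Real.log_two_gt_d9
  refine ⟨1 / 1024, by norm_num, 2 ^ 67, ?_⟩
  intro k hk p hp hp' d hd n hF
  have hk1 : 1 ≤ k := le_trans Nat.one_le_two_pow hk
  set K := Nat.log 2 k with hK
  have hKk : 2 ^ K ≤ k := Nat.pow_log_le_self 2 (by omega)
  have hkK : k < 2 ^ (K + 1) := Nat.lt_pow_succ_log_self (by norm_num) k
  have hK67 : 67 ≤ K := by
    rw [hK]
    exact Nat.le_log_of_pow_le (by norm_num) hk
  set b := K / 4 with hb
  have hb16 : 16 ≤ b := by omega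
  set u := Nat.log 2 (2 * b + 1) + 1 with hu
  have hu1 : 2 * b + 1 < 2 ^ u := Nat.lt_pow_succ_log_self (by norm_num) _
  have hu2 : 2 ^ (u - 1) ≤ 2 * b + 1 := by
    rw [hu, Nat.add_sub_cancel]
    exact Nat.pow_log_le_self 2 (by omega)
  have hub : 2 * u ≤ b := by
    have h1 : Nat.log 2 (2 * b + 1) < b / 2 := by
      apply Nat.log_lt_of_lt_pow (by omega)
      have := pow_big (b / 2) (by omega)
      omega
    omega
  set t := b / u with ht
  have hupos : 0 < u := by omega
  have ht2 : 2 ≤ t := by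
    rw [ht]
    exact (Nat.le_div_iff_mul_le hupos).2 hub
  have htu : t * u ≤ b := Nat.div_mul_le_self _ _
  have htu' : b < (t + 1) * u := by
    have := Nat.lt_mul_div_succ b hupos
    rwa [mul_comm] at this
  have htb : t ≤ 2 ^ b := by
    have h1 : t ≤ b := Nat.div_le_self _ _
    exact h1.trans Nat.lt_two_pow_self.le
  have hkk : t * (2 ^ b * 2 ^ b) * (2 * b + 1) ^ t ≤ k := by
    refine le_trans ?_ hKk
    calc t * (2 ^ b * 2 ^ b) * (2 * b + 1) ^ t ≤ 2 ^ b * (2 ^ b * 2 ^ b) * (2 ^ u) ^ t := by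
          gcongr
      _ = 2 ^ (3 * b + t * u) := by
          rw [← pow_mul, ← pow_add, ← pow_add, ← pow_add]
          congr 1
          ring
      _ ≤ 2 ^ K := Nat.pow_le_pow_right (by norm_num) (by omega)
  have hlt := not_forcesVC (by omega) hd (by omega) hp' hkk hF
  have hnpos : (0 : ℝ) < n := by
    have : 0 < n := lt_of_le_of_lt (Nat.zero_le _) hlt
    exact_mod_cast this
  rw [← Real.le_log_iff_exp_le hnpos]
  have h5 : (b : ℝ) * t * Real.log 2 ≤ Real.log n := by
    have h6 : ((2 ^ (b * t) : ℕ) : ℝ) ≤ n := by exact_mod_cast hlt.le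
    calc (b : ℝ) * t * Real.log 2 = Real.log ((2 ^ (b * t) : ℕ) : ℝ) := by
          push_cast
          rw [Real.log_pow]
          push_cast
          ring
      _ ≤ Real.log n := Real.log_le_log (by positivity) h6
  refine le_trans ?_ h5
  -- estimates
  set L := Real.log k with hL
  have hkR : (0 : ℝ) < k := by exact_mod_cast hk1
  have hKL : (K : ℝ) * Real.log 2 ≤ L := by
    have h6 : ((2 ^ K : ℕ) : ℝ) ≤ k := by exact_mod_cast hKk
    calc (K : ℝ) * Real.log 2 = Real.log ((2 ^ K : ℕ) : ℝ) := by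
          push_cast
          rw [Real.log_pow]
      _ ≤ L := Real.log_le_log (by positivity) h6
  have hLK : L ≤ ((K : ℝ) + 1) * Real.log 2 := by
    have h6 : (k : ℝ) ≤ ((2 ^ (K + 1) : ℕ) : ℝ) := by exact_mod_cast hkK.le
    calc L ≤ Real.log ((2 ^ (K + 1) : ℕ) : ℝ) := Real.log_le_log hkR h6
      _ = ((K : ℝ) + 1) * Real.log 2 := by
          push_cast
          rw [Real.log_pow]
          push_cast
          ring
  have hK67R : (67 : ℝ) ≤ K := by exact_mod_cast hK67
  have hL46 : (46 : ℝ) ≤ L := by nlinarith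
  have hLK' : L ≤ K := by nlinarith
  set y := Real.log L with hy
  have hLpos : 0 < L := by linarith
  have hy1 : 1 ≤ y := by
    rw [hy, Real.le_log_iff_exp_le hLpos]
    have := Real.exp_one_lt_d9
    linarith
  have hbL : L / 8 ≤ b := by
    have h6 : (K : ℝ) ≤ 4 * b + 3 := by
      have : K ≤ 4 * b + 3 := by omega
      exact_mod_cast this
    linarith
  have huy : (u : ℝ) ≤ 4 * y := by
    have h6 : 2 ^ (u - 1) ≤ K := by omega
    have h7 : ((u : ℝ) - 1) * Real.log 2 ≤ Real.log K := by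
      have h8 : ((2 ^ (u - 1) : ℕ) : ℝ) ≤ K := by exact_mod_cast h6
      calc ((u : ℝ) - 1) * Real.log 2 = Real.log ((2 ^ (u - 1) : ℕ) : ℝ) := by
            push_cast
            rw [Real.log_pow, Nat.cast_sub (by omega)]
            push_cast
            ring
        _ ≤ Real.log K := Real.log_le_log (by positivity) h8
    have h9 : (K : ℝ) ≤ 2 * L := by nlinarith
    have h10 : Real.log K ≤ Real.log 2 + y := by
      calc Real.log K ≤ Real.log (2 * L) := Real.log_le_log (by linarith) h9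
        _ = Real.log 2 + y := by rw [Real.log_mul (by norm_num) hLpos.ne']
    nlinarith
  have htR : (b : ℝ) / (2 * u) ≤ t := by
    have h6 : (b : ℝ) ≤ (t + 1) * u := by exact_mod_cast htu'.le
    have h7 : (2 : ℝ) ≤ t := by exact_mod_cast ht2
    have h8 : (0 : ℝ) < u := by exact_mod_cast hupos
    rw [div_le_iff₀ (by positivity)]
    nlinarith
  have hbpos : (0 : ℝ) < b := by
    have : 0 < b := by omega
    exact_mod_cast this
  have huR : (0 : ℝ) < u := by exact_mod_cast hupos
  calc 1 / 1024 * L ^ 2 / y ≤ (L / 8) * ((L / 8) / (2 * (4 * y))) * Real.log 2 := by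
        rw [div_le_iff₀ (by linarith)]
        have : L / 8 * (L / 8 / (2 * (4 * y))) * Real.log 2 * y = L ^ 2 * Real.log 2 / 512 := by
          field_simp
          ring
        rw [this]
        nlinarith [sq_nonneg L]
    _ ≤ (b : ℝ) * ((b : ℝ) / (2 * u)) * Real.log 2 := by gcongr
    _ ≤ (b : ℝ) * t * Real.log 2 := by gcongr

end Pool.Agent.Helper10_VCL
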