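import Mathlib
import Pool.Agent.Helper34_VC.Defs
import Pool.Agent.Helper10_VCL.ColR

/-! The lower bound for colour classes of VC-dimension one and cliques with `p < 2^(r+2)`
vertices. -/

set_option autoImplicit false

namespace Pool.Agent.Helper10_VCL

open Finset Pool.Agent.Helper34_VC

/-- if two neighbourhoods in a class are equal or disjoint, the VC-dimension is at most one -/
theorem classVC_one {n k : ℕ} {c : Fin n → Fin n → Fin k}
    (hrect : ∀ x x' y y', x ≠ y → x' ≠ y → x ≠ y' → c x' y = c x y → c x y' = c x y →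
        x' ≠ y' ∧ c x' y' = c x y) : ClassVC c 1 := by
  intro q
  unfold Finset.vcDim
  refine Finset.sup_le (fun T hT => ?_)
  rw [Finset.mem_shatterer] at hT
  by_contra hcard
  push Not at hcard
  obtain ⟨u, hu, v, hv, huv⟩ := Finset.one_lt_card.mp hcard
  obtain ⟨A1, hA1, h1⟩ := hT (t := {u}) (Finset.singleton_subset_iff.2 hu)
  obtain ⟨A2, hA2, h2⟩ := hT (t := {u, v}) (by
    intro z hz
    rw [mem_insert, mem_singleton] at hz
    rcases hz with rfl | rfl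
    · exact hu
    · exact hv)
  rw [mem_image] at hA1 hA2
  obtain ⟨x1, _, rfl⟩ := hA1
  obtain ⟨x2, _, rfl⟩ := hA2
  have m1 : u ∈ nbr c q x1 := by
    have : u ∈ T ∩ nbr c q x1 := by rw [h1]; exact mem_singleton_self _
    exact (mem_inter.1 this).2
  have m2 : u ∈ nbr c q x2 := by
    have : u ∈ T ∩ nbr c q x2 := by rw [h2]; exact mem_insert_self _ _
    exact (mem_inter.1 this).2
  have m3 : v ∈ nbr c q x2 := by
    have : v ∈ T ∩ nbr c q x2 := by
      rw [h2]; exact mem_insert_of_mem (mem_singleton_self _)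
    exact (mem_inter.1 this).2
  unfold nbr at m1 m2 m3
  rw [mem_filter] at m1 m2 m3
  obtain ⟨h3, h4⟩ := hrect x2 x1 u v m2.2.1.symm m1.2.1.symm m3.2.1.symm
    (m1.2.2.trans m2.2.2.symm) (m3.2.2.trans m2.2.2.symm)
  have m4 : v ∈ T ∩ nbr c q x1 := by
    rw [mem_inter]
    refine ⟨hv, ?_⟩
    unfold nbr
    rw [mem_filter]
    exact ⟨mem_univ _, h3.symm, h4.trans m2.2.2⟩
  rw [h1, mem_singleton] at m4
  exact huv m4.symm

theorem not_forcesVC_R {r t b k n p d : ℕ} (hr : 1 ≤ r) (ht : 1 ≤ t) (hd : 1 ≤ d) (hp : 2 ≤ p)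
    (hp' : p < 2 ^ (r + 2))
    (hk : 2 ^ (t ^ r) * ((2 ^ b * 2 ^ b) ^ (t ^ (r - 1)) * ((2 ^ b) ^ (t ^ (r - 1))) ^ r) *
      (2 * b + 1) ^ (t ^ r) ≤ k) (hF : ForcesVC d p k n) :
    (2 ^ b) ^ (t ^ r) < n := by
  by_contra hn
  push Not at hn
  obtain ⟨c, hc, hrect, hgood⟩ := colouringR r t b k n hr ht hk hn
  obtain ⟨S, hSp, hS⟩ := hF c hc (fun q => (classVC_one hrect q).trans hd)
  have := hgood S (by omega)
  omega

theorem sq_le_pow (l : ℕ) (hl : 8 ≤ l) : l * (l + 2) ≤ 2 * 2 ^ l := by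
  induction l, hl using Nat.le_induction with
  | base => norm_num
  | succ l hl ih => rw [pow_succ]; nlinarith

/-- **The lower bound for all `p`.** -/
theorem lowerR (r : ℕ) (hr : 1 ≤ r) : ∃ c : ℝ, 0 < c ∧ ∃ k₀ : ℕ, ∀ k : ℕ, k₀ ≤ k →
    ∀ p : ℕ, 4 ≤ p → p < 2 ^ (r + 2) → ∀ d : ℕ, 1 ≤ d → ∀ n : ℕ, ForcesVC d p k n →
      Real.exp (c * (Real.log k) ^ (1 + 1 / (r : ℝ)) / (Real.log (Real.log k)) ^ (1 / (r : ℝ)))
        ≤ n := by
  have hl2 : 0 < Real.log 2 := Real.log_pos (by norm_num)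
  have hl2' : Real.log 2 < 0.6931471808 := Real.log_two_lt_d9
  have hl2'' : 0.6931471803 < Real.log 2 := Real.log_two_gt_d9
  have hr0 : (0 : ℝ) < r := by exact_mod_cast hr
  set e : ℝ := 1 + 1 / (r : ℝ) with he
  have he0 : 0 < e := by positivity
  refine ⟨Real.log 2 / (2 ^ (r + 1) * ((r : ℝ) + 3) ^ e * 8 ^ (1 / (r : ℝ))), by positivity,
    2 ^ (4 ^ (r + 3)), ?_⟩
  intro k hk p hp hp' d hd n hF
  have hk1 : 1 ≤ k := le_trans Nat.one_le_two_pow hk
  set K := Nat.log 2 k with hK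
  have hKk : 2 ^ K ≤ k := Nat.pow_log_le_self 2 (by omega)
  have hkK : k < 2 ^ (K + 1) := Nat.lt_pow_succ_log_self (by norm_num) k
  have hK4 : 4 ^ (r + 3) ≤ K := by
    rw [hK]
    exact Nat.le_log_of_pow_le (by norm_num) hk
  have h256 : 256 ≤ 4 ^ (r + 3) := by
    calc 256 = 4 ^ 4 := by norm_num
      _ ≤ 4 ^ (r + 3) := Nat.pow_le_pow_right (by norm_num) (by omega)
  have hK256 : 256 ≤ K := h256.trans hK4
  set l := Nat.log 2 K with hl
  have hlK : 2 ^ l ≤ K := Nat.pow_log_le_self 2 (by omega)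
  have hKl : K < 2 ^ (l + 1) := Nat.lt_pow_succ_log_self (by norm_num) K
  have hlr : 2 * (r + 3) ≤ l := by
    rw [hl]
    apply Nat.le_log_of_pow_le (by norm_num)
    rw [pow_mul]
    exact hK4
  have hl8 : 8 ≤ l := by omega
  set u := l + 2 with hu
  have huK : (r + 3) * u ≤ K := by
    have h1 := sq_le_pow l hl8
    have h2 : 2 * ((r + 3) * u) ≤ l * (l + 2) := by
      rw [hu, ← mul_assoc]
      exact Nat.mul_le_mul_right _ hlr
    omega
  have hupos : (0 : ℝ) < u := by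
    have : 0 < u := by omega
    exact_mod_cast this
  set z : ℝ := (K : ℝ) / (((r : ℝ) + 3) * u) with hz
  have hz1 : 1 ≤ z := by
    rw [hz, one_le_div (by positivity)]
    exact_mod_cast huK
  set y : ℝ := z ^ (1 / (r : ℝ)) with hy
  have hy1 : 1 ≤ y := Real.one_le_rpow hz1 (by positivity)
  have hyr : y ^ r = z := by
    rw [hy, ← Real.rpow_natCast, ← Real.rpow_mul (by linarith), one_div_mul_cancel hr0.ne',
      Real.rpow_one]
  set t := ⌊y⌋₊ with ht
  have ht1 : 1 ≤ t := by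
    rw [ht]; exact Nat.le_floor (by exact_mod_cast hy1)
  have ht1R : (1 : ℝ) ≤ t := by exact_mod_cast ht1
  have hty : (t : ℝ) ≤ y := Nat.floor_le (by linarith)
  have hty2 : y / 2 ≤ t := by
    have h1 : y < t + 1 := Nat.lt_floor_add_one y
    linarith
  have htr : (r + 3) * u * t ^ r ≤ K := by
    have h1 : ((r : ℝ) + 3) * u * (t : ℝ) ^ r ≤ K := by
      calc ((r : ℝ) + 3) * u * (t : ℝ) ^ r ≤ ((r : ℝ) + 3) * u * y ^ r := by gcongr
        _ = K := by rw [hyr, hz]; field_simp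
    exact_mod_cast h1
  set b := t * u with hb
  have h2b : 2 * b + 1 ≤ 2 ^ (u - 1) := by
    have h1 : t ≤ t ^ r := Nat.le_self_pow (by omega) t
    have h2 : 4 * (u * t) ≤ K := by
      calc 4 * (u * t) ≤ (r + 3) * (u * t ^ r) :=
            Nat.mul_le_mul (by omega) (Nat.mul_le_mul_left _ h1)
        _ = (r + 3) * u * t ^ r := by ring
        _ ≤ K := htr
    have h3 : u - 1 = l + 1 := by omega
    rw [h3, hb, mul_comm t u]
    omega
  have hkk : 2 ^ (t ^ r) * ((2 ^ b * 2 ^ b) ^ (t ^ (r - 1)) * ((2 ^ b) ^ (t ^ (r - 1))) ^ r) *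
      (2 * b + 1) ^ (t ^ r) ≤ k := by
    refine le_trans ?_ hKk
    obtain ⟨s, rfl⟩ : ∃ s, r = s + 1 := ⟨r - 1, by omega⟩
    calc 2 ^ (t ^ (s + 1)) * ((2 ^ b * 2 ^ b) ^ (t ^ (s + 1 - 1)) *
          ((2 ^ b) ^ (t ^ (s + 1 - 1))) ^ (s + 1)) * (2 * b + 1) ^ (t ^ (s + 1))
        ≤ 2 ^ (t ^ (s + 1)) * ((2 ^ b * 2 ^ b) ^ (t ^ (s + 1 - 1)) *
          ((2 ^ b) ^ (t ^ (s + 1 - 1))) ^ (s + 1)) * (2 ^ (u - 1)) ^ (t ^ (s + 1)) := by gcongr
      _ = 2 ^ (t ^ (s + 1) + (s + 3) * b * t ^ s + (u - 1) * t ^ (s + 1)) := by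
          rw [Nat.add_sub_cancel, ← pow_add, ← pow_mul, ← pow_mul, ← pow_mul, ← pow_mul, ← pow_add,
            ← pow_add, ← pow_add]
          congr 1
          ring
      _ ≤ 2 ^ K := by
          apply Nat.pow_le_pow_right (by norm_num)
          refine le_trans (le_of_eq ?_) htr
          obtain ⟨w, hw⟩ : ∃ w, u = w + 1 := ⟨u - 1, by omega⟩
          rw [hb, hw, Nat.add_sub_cancel]
          ring
  have hlt := not_forcesVC_R hr ht1 hd (by omega) hp' hkk hF
  have hnpos : (0 : ℝ) < n := by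
    have : 0 < n := lt_of_le_of_lt (Nat.zero_le _) hlt
    exact_mod_cast this
  rw [← Real.le_log_iff_exp_le hnpos]
  have h5 : (u : ℝ) * (t : ℝ) ^ (r + 1) * Real.log 2 ≤ Real.log n := by
    have h6 : (((2 ^ b) ^ (t ^ r) : ℕ) : ℝ) ≤ n := by exact_mod_cast hlt.le
    calc (u : ℝ) * (t : ℝ) ^ (r + 1) * Real.log 2 = Real.log (((2 ^ b) ^ (t ^ r) : ℕ) : ℝ) := by
          push_cast
          rw [Real.log_pow, Real.log_pow, hb]
          push_cast
          ring
      _ ≤ Real.log n := Real.log_le_log (by positivity) h6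
  refine le_trans ?_ h5
  -- estimates
  set L := Real.log k with hL
  have hkR : (0 : ℝ) < k := by exact_mod_cast hk1
  have hKL : (K : ℝ) * Real.log 2 ≤ L := by
    have h6 : ((2 ^ K : ℕ) : ℝ) ≤ k := by exact_mod_cast hKk
    calc (K : ℝ) * Real.log 2 = Real.log ((2 ^ K : ℕ) : ℝ) := by
          push_cast
          rw [Real.log_pow]
      _ ≤ L := Real.log_le_log (by positivity) h6
  have hLK : L ≤ ((K : ℝ) + 1) * Real.log 2 := by
    have h6 : (k : ℝ) ≤ ((2 ^ (K + 1) : ℕ) : ℝ) := by exact_mod_cast hkK.le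
    calc L ≤ Real.log ((2 ^ (K + 1) : ℕ) : ℝ) := Real.log_le_log hkR h6
      _ = ((K : ℝ) + 1) * Real.log 2 := by
          push_cast
          rw [Real.log_pow]
          push_cast
          ring
  have hK67R : (256 : ℝ) ≤ K := by exact_mod_cast hK256
  have hL100 : (100 : ℝ) ≤ L := by nlinarith
  have hLK' : L ≤ K := by nlinarith
  set Y := Real.log L with hY
  have hLpos : 0 < L := by linarith
  have hY1 : 1 ≤ Y := by
    rw [hY, Real.le_log_iff_exp_le hLpos]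
    have := Real.exp_one_lt_d9
    linarith
  have huY : (u : ℝ) ≤ 8 * Y := by
    have h7 : (l : ℝ) * Real.log 2 ≤ Real.log K := by
      have h8 : ((2 ^ l : ℕ) : ℝ) ≤ K := by exact_mod_cast hlK
      calc (l : ℝ) * Real.log 2 = Real.log ((2 ^ l : ℕ) : ℝ) := by
            push_cast
            rw [Real.log_pow]
        _ ≤ Real.log K := Real.log_le_log (by positivity) h8
    have h9 : (K : ℝ) ≤ 2 * L := by nlinarith
    have h10 : Real.log K ≤ Real.log 2 + Y := by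
      calc Real.log K ≤ Real.log (2 * L) := Real.log_le_log (by linarith) h9
        _ = Real.log 2 + Y := by rw [Real.log_mul (by norm_num) hLpos.ne']
    have h11 : (u : ℝ) = l + 2 := by rw [hu]; push_cast; ring
    rw [h11]
    nlinarith
  have hzE : z ^ e = y ^ (r + 1) := by
    rw [he, Real.rpow_add (by linarith), Real.rpow_one, pow_succ, hyr]
  have hr3 : (0 : ℝ) < (r : ℝ) + 3 := by positivity
  have hmain : (K : ℝ) ^ e / (((r : ℝ) + 3) ^ e * (u : ℝ) ^ (1 / (r : ℝ))) = u * y ^ (r + 1) := by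
    rw [← hzE, hz, Real.div_rpow (by positivity) (by positivity),
      Real.mul_rpow (by positivity) (by positivity)]
    have h12 : (u : ℝ) ^ e = u * (u : ℝ) ^ (1 / (r : ℝ)) := by
      rw [he, Real.rpow_add hupos, Real.rpow_one]
    rw [h12]
    have h13 : (u : ℝ) ^ (1 / (r : ℝ)) ≠ 0 := (Real.rpow_pos_of_pos hupos _).ne'
    have h14 : ((r : ℝ) + 3) ^ e ≠ 0 := (Real.rpow_pos_of_pos hr3 _).ne'
    field_simp
  have hYe : (0 : ℝ) < Y ^ (1 / (r : ℝ)) := Real.rpow_pos_of_pos (by linarith) _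
  calc Real.log 2 / (2 ^ (r + 1) * ((r : ℝ) + 3) ^ e * 8 ^ (1 / (r : ℝ))) * L ^ e /
        Y ^ (1 / (r : ℝ))
      = (L ^ e / (((r : ℝ) + 3) ^ e * (8 ^ (1 / (r : ℝ)) * Y ^ (1 / (r : ℝ))))) / 2 ^ (r + 1) *
          Real.log 2 := by
        have h14 : ((r : ℝ) + 3) ^ e ≠ 0 := (Real.rpow_pos_of_pos hr3 _).ne'
        have h15 : (8 : ℝ) ^ (1 / (r : ℝ)) ≠ 0 := (Real.rpow_pos_of_pos (by norm_num) _).ne'
        field_simp
    _ ≤ ((K : ℝ) ^ e / (((r : ℝ) + 3) ^ e * (u : ℝ) ^ (1 / (r : ℝ)))) / 2 ^ (r + 1) *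
          Real.log 2 := by
        have h16 : (u : ℝ) ^ (1 / (r : ℝ)) ≤ 8 ^ (1 / (r : ℝ)) * Y ^ (1 / (r : ℝ)) := by
          rw [← Real.mul_rpow (by norm_num) (by linarith)]
          exact Real.rpow_le_rpow hupos.le huY (by positivity)
        have h17 : L ^ e ≤ (K : ℝ) ^ e := Real.rpow_le_rpow hLpos.le hLK' he0.le
        have h14 : 0 < ((r : ℝ) + 3) ^ e := Real.rpow_pos_of_pos hr3 _
        have h18 : (0 : ℝ) < (u : ℝ) ^ (1 / (r : ℝ)) := Real.rpow_pos_of_pos hupos _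
        gcongr
    _ = u * (y / 2) ^ (r + 1) * Real.log 2 := by
        rw [hmain, div_pow]
        ring
    _ ≤ (u : ℝ) * (t : ℝ) ^ (r + 1) * Real.log 2 := by
        gcongr

end Pool.Agent.Helper10_VCL
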